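import Mathlib

/- Prime pairs over `F[X]`: transport along the automorphisms of `F[X]`. -/

set_option autoImplicit false
set_option linter.unusedSectionVars false

namespace Pool.Agent.MP_f37147_nt.Ex

open Polynomial

variable (F : Type) [Field F] [Fintype F] [CharP F 2]

/-- Prime pairs for all but `K` admissible shifts. -/
def QP (K : ℕ) : Prop := ∀ (a c d : F[X]) (H : Set F[X]), d ≠ 0 → ¬ IsSquare (a * c) →
    H.Finite →
    (∀ h ∈ H, ∃ x y : F[X], a * x ^ 2 + (c + a * h ^ 2) = d * y ∧ IsCoprime (x * y) (a * d) ∧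
      (Fintype.card F = 2 → IsCoprime (x * y) (X * (X + 1)))) →
    ∃ n₀ : ℕ, ∀ n, n₀ ≤ n → {h ∈ H | ¬ ∃ P Q : F[X], P.Monic ∧ P.natDegree = n ∧ Irreducible P ∧
      Irreducible Q ∧ a * P ^ 2 + (c + a * h ^ 2) = d * Q}.encard ≤ K

/-- The conclusion in degree `n`. -/
def Pair (a c d : F[X]) (n : ℕ) : Prop :=
  ∃ P Q : F[X], P.Monic ∧ P.natDegree = n ∧ Irreducible P ∧ Irreducible Q ∧
    a * P ^ 2 + c = d * Q

/-- The shifts that come from automorphisms. -/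
def Orb (a c d : F[X]) (n : ℕ) : Set F[X] :=
  {h : F[X] | ∃ (φ : F →+* F) (r b u v : F), r ≠ 0 ∧
    (a.map φ).comp (C r * X + C b) = C u * a ∧ (d.map φ).comp (C r * X + C b) = C v * d ∧
    (c.map φ).comp (C r * X + C b) = C (u * r ^ (2 * n)) * (c + a * h ^ 2)}

variable {F}

theorem two_eq : (2 : F[X]) = 0 := by exact_mod_cast CharP.cast_eq_zero F[X] 2

theorem sig (φ : F →+* F) {r : F} (b : F) (hr : r ≠ 0) : ∃ s : F[X] ≃+* F[X],
    (∀ g, s g = (g.map φ).comp (C r * X + C b)) ∧ (∀ g, (s g).natDegree = g.natDegree) ∧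
    ∀ g, (s g).leadingCoeff = φ g.leadingCoeff * r ^ g.natDegree := by
  have hb : Function.Bijective φ := Finite.injective_iff_bijective.1 φ.injective
  let _ : Invertible r := invertibleOfNonzero hr
  have h1 : (C r * X + C b).natDegree = 1 := natDegree_linear hr
  have h2 : (C r * X + C b).leadingCoeff = r := leadingCoeff_linear hr
  have e : ∀ g : F[X], ((mapEquiv (RingEquiv.ofBijective φ hb)).trans
      (algEquivCMulXAddC r b).toRingEquiv) g = (g.map φ).comp (C r * X + C b) := fun g => by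
    rw [comp_eq_aeval]
    rfl
  refine ⟨_, e, fun g => ?_, fun g => ?_⟩
  · rw [e, natDegree_comp, h1, mul_one, natDegree_map]
  · rw [e, leadingCoeff_comp (by rw [h1]; exact one_ne_zero), h2, natDegree_map, leadingCoeff_map]

theorem unitC {u : F} (hu : u ≠ 0) : IsUnit (C u : F[X]) := isUnit_C.2 (IsUnit.mk0 u hu)

theorem fin_deg (N : ℕ) : {h : F[X] | h.natDegree ≤ N}.Finite := by
  have : Finite (degreeLT F (N + 1)) := Finite.of_equiv _ (degreeLTEquiv F (N + 1)).toEquiv.symm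
  refine (Set.toFinite (degreeLT F (N + 1) : Set F[X])).subset fun h hh => ?_
  exact mem_degreeLT.2 (degree_le_natDegree.trans_lt (Nat.cast_lt.2 (Nat.lt_succ_of_le hh)))

theorem data {a c d h : F[X]} {n : ℕ} (ha : a ≠ 0) (hd : d ≠ 0) (hh : h ∈ Orb F a c d n) :
    ∃ (s : F[X] ≃+* F[X]) (φ : F →+* F) (r u v : F), r ≠ 0 ∧ u ≠ 0 ∧ v ≠ 0 ∧
      (∀ g, (s g).natDegree = g.natDegree) ∧
      (∀ g, (s g).leadingCoeff = φ g.leadingCoeff * r ^ g.natDegree) ∧
      s a = C u * a ∧ s d = C v * d ∧ s c = C u * C (r ^ n) ^ 2 * (c + a * h ^ 2) := by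
  obtain ⟨φ, r, b, u, v, hr, e1, e2, e3⟩ := hh
  obtain ⟨s, s1, s2, s3⟩ := sig φ b hr
  rw [← s1] at e1 e2 e3
  refine ⟨s, φ, r, u, v, hr, ?_, ?_, s2, s3, e1, e2, ?_⟩
  · rintro rfl
    rw [C_0, zero_mul] at e1
    exact ha (s.map_eq_zero_iff.1 e1)
  · rintro rfl
    rw [C_0, zero_mul] at e2
    exact hd (s.map_eq_zero_iff.1 e2)
  · rw [e3, ← C_pow, ← C_mul, ← pow_mul, mul_comm n 2]

theorem orbit {K : ℕ} (hK : QP F K) {a c d : F[X]} (hq : Fintype.card F ≠ 2) (hd : d ≠ 0)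
    (hs : ¬ IsSquare (a * c))
    (hx : ∃ x y : F[X], a * x ^ 2 + c = d * y ∧ IsCoprime (x * y) (a * d)) :
    ∃ n₀ : ℕ, ∀ n, n₀ ≤ n → (K : ℕ∞) < (Orb F a c d n).encard → Pair F a c d n := by
  have ha : a ≠ 0 := fun e => hs ⟨0, by rw [e, zero_mul, zero_mul]⟩
  obtain ⟨x, y, hx, hc⟩ := hx
  obtain ⟨n₀, hn⟩ := hK a c d {h | ∃ n, h ∈ Orb F a c d n} hd hs
    ((fin_deg c.natDegree).subset fun h ⟨n, hh⟩ => by
      obtain ⟨s, φ, r, u, v, hr, hu, -, s2, -, -, -, e3⟩ := data ha hd hh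
      have h1 : (c + a * h ^ 2).natDegree = c.natDegree := by
        rw [← s2 c, e3, ← C_pow, ← C_mul,
          natDegree_C_mul (mul_ne_zero hu (pow_ne_zero _ (pow_ne_zero _ hr)))]
      have h2 : (a * h ^ 2).natDegree ≤ c.natDegree := by
        rw [show a * h ^ 2 = (c + a * h ^ 2) - c by ring]
        exact (natDegree_sub_le _ _).trans (by rw [h1, max_self])
      show h.natDegree ≤ c.natDegree
      by_cases h0 : h = 0
      · rw [h0, natDegree_zero]; exact Nat.zero_le _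
      · rw [natDegree_mul ha (pow_ne_zero _ h0), natDegree_pow] at h2
        omega)
    (fun h ⟨n, hh⟩ => by
      obtain ⟨s, φ, r, u, v, hr, hu, hv, -, -, e1, e2, e3⟩ := data ha hd hh
      have hρ : r ^ n ≠ 0 := pow_ne_zero _ hr
      have k1 : (C (r ^ n) : F[X]) * C (r ^ n)⁻¹ = 1 := by rw [← C_mul, mul_inv_cancel₀ hρ, C_1]
      have k2 : (C u : F[X]) * C u⁻¹ = 1 := by rw [← C_mul, mul_inv_cancel₀ hu, C_1]
      have k3 := congrArg s hx
      rw [map_add, map_mul, map_mul, map_pow, e1, e2, e3] at k3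
      have k4 : IsCoprime (s x * s y) (C u * a * (C v * d)) := by
        have := hc.map (s : F[X] →+* F[X])
        simp only [RingHom.coe_coe, map_mul, e1, e2] at this
        exact this
      refine ⟨C (r ^ n)⁻¹ * s x, C v * C u⁻¹ * C (r ^ n)⁻¹ ^ 2 * s y, ?_, ?_, fun e => absurd e hq⟩
      · linear_combination (C u⁻¹ * C (r ^ n)⁻¹ ^ 2) * k3 -
          (a * C (r ^ n)⁻¹ ^ 2 * s x ^ 2 + C (r ^ n) ^ 2 * C (r ^ n)⁻¹ ^ 2 * (c + a * h ^ 2)) * k2 -
          (C (r ^ n) * C (r ^ n)⁻¹ + 1) * (c + a * h ^ 2) * k1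
      · rw [show C (r ^ n)⁻¹ * s x * (C v * C u⁻¹ * C (r ^ n)⁻¹ ^ 2 * s y) =
          (C v * C u⁻¹ * C (r ^ n)⁻¹ ^ 3) * (s x * s y) by ring,
          isCoprime_mul_unit_left_left (((unitC hv).mul (unitC (inv_ne_zero hu))).mul
            ((unitC (inv_ne_zero hρ)).pow 3))]
        exact k4.of_isCoprime_of_dvd_right ⟨C u * C v, by ring⟩)
  refine ⟨n₀, fun n h1 h2 => ?_⟩
  by_contra hP
  refine absurd ((Set.encard_le_encard fun h hh => ?_).trans (hn n h1)) (not_le.2 h2)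
  refine ⟨⟨n, hh⟩, fun ⟨P, Q, p1, p2, p3, p4, p5⟩ => hP ?_⟩
  obtain ⟨s, φ, r, u, v, hr, hu, hv, s2, s3, e1, e2, e3⟩ := data ha hd hh
  have hρ : r ^ n ≠ 0 := pow_ne_zero _ hr
  have k2 : (C v : F[X]) * C v⁻¹ = 1 := by rw [← C_mul, mul_inv_cancel₀ hv, C_1]
  have d1 : (s.symm (C (r ^ n) * P)).natDegree = n := by
    rw [← s2, s.apply_symm_apply, natDegree_C_mul hρ, p2]
  refine ⟨s.symm (C (r ^ n) * P), s.symm (C u * C v⁻¹ * C (r ^ n) ^ 2 * Q), ?_, d1, ?_, ?_, ?_⟩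
  · have h3 := s3 (s.symm (C (r ^ n) * P))
    rw [s.apply_symm_apply, d1, leadingCoeff_mul, leadingCoeff_C, p1.leadingCoeff, mul_one] at h3
    have h4 : φ (s.symm (C (r ^ n) * P)).leadingCoeff = φ 1 := by
      rw [map_one]
      exact mul_right_cancel₀ hρ (by rw [← h3, one_mul])
    exact φ.injective h4
  · exact (MulEquiv.irreducible_iff s.symm).2 ((irreducible_isUnit_mul (unitC hρ)).2 p3)
  · exact (MulEquiv.irreducible_iff s.symm).2 ((irreducible_isUnit_mul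
      (((unitC hu).mul (unitC (inv_ne_zero hv))).mul ((unitC hρ).pow 2))).2 p4)
  · apply s.injective
    rw [map_add, map_mul s a, map_mul s d, map_pow, e1, e2, e3, s.apply_symm_apply,
      s.apply_symm_apply]
    linear_combination (C u * C (r ^ n) ^ 2) * p5 - (C u * C (r ^ n) ^ 2 * d * Q) * k2

end Pool.Agent.MP_f37147_nt.Ex
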