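import Mathlib
import Pool.Agent.MP_f37147_nt.Ex.Orbit

/- Prime pairs over `F[X]`: two explicit families. -/

set_option autoImplicit false
set_option linter.unusedSectionVars false

namespace Pool.Agent.MP_f37147_nt.Ex

open Polynomial

variable {F : Type} [Field F] [Fintype F] [CharP F 2]

theorem QP.mono {K K' : ℕ} (h : QP F K) (hK : K ≤ K') : QP F K' := fun a c d H h1 h2 h3 h4 => by
  obtain ⟨n₀, hn⟩ := h a c d H h1 h2 h3 h4
  exact ⟨n₀, fun n h5 => (hn n h5).trans (Nat.cast_le.2 hK)⟩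

open Classical in
theorem big {S : Finset F} {f : F → F[X]} {O : Set F[X]} {K D : ℕ} (hf : ∀ i ∈ S, f i ∈ O)
    (hD : ∀ i ∈ S, ∃ p : F[X], p ≠ 0 ∧ p.natDegree ≤ D ∧ ∀ j ∈ S, f j = f i → p.IsRoot j)
    (hK : K * D < S.card) : (K : ℕ∞) < O.encard := by
  have h1 : S.card ≤ D * (S.image f).card := Finset.card_le_mul_card_image S D fun z hz => by
    obtain ⟨i, hi, rfl⟩ := Finset.mem_image.1 hz
    obtain ⟨p, p0, p1, p2⟩ := hD i hi
    refine le_trans (Finset.card_le_card fun j hj => ?_)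
      ((Multiset.toFinset_card_le p.roots).trans ((card_roots' p).trans p1))
    rw [Finset.mem_filter] at hj
    exact Multiset.mem_toFinset.2 ((mem_roots p0).2 (p2 j hj.1 hj.2))
  have h2 : K < (S.image f).card := by
    by_contra h3
    have := Nat.mul_le_mul_left D (not_lt.1 h3)
    rw [mul_comm] at hK
    omega
  refine lt_of_lt_of_le (Nat.cast_lt.2 h2) ?_
  rw [← Set.encard_coe_eq_coe_finsetCard]
  refine Set.encard_le_encard fun z hz => ?_
  obtain ⟨i, hi, rfl⟩ := Finset.mem_image.1 (Finset.mem_coe.1 hz)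
  exact hf i hi

theorem sq_of_der {f : F[X]} (hf : derivative f = 0) : ∃ h : F[X], f = h ^ 2 := by
  have : Fact (Nat.Prime 2) := ⟨Nat.prime_two⟩
  obtain ⟨g, hg⟩ := map_surjective (frobenius F 2) (surjective_frobenius F 2) (contract 2 f)
  refine ⟨g, ?_⟩
  rw [← expand_contract 2 hf two_ne_zero, ← hg, ← map_expand, map_frobenius_expand]

theorem der_sq {f : F[X]} (hf : IsSquare f) : derivative f = 0 := by
  obtain ⟨s, rfl⟩ := hf
  rw [derivative_mul]
  linear_combination (derivative s * s) * (two_eq (F := F))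

theorem transl {K : ℕ} (hK : QP F K) (h2 : 2 ≤ K) {a d g : F} {c : F[X]} (ha : a ≠ 0)
    (hd : d ≠ 0) (hg : g ≠ 0) (hc : derivative c = C g) (hq : K * c.natDegree < Fintype.card F) :
    ∃ n₀ : ℕ, ∀ n, n₀ ≤ n → Pair F (C a) c (C d) n := by
  have hD : 1 ≤ c.natDegree := by
    by_contra h
    rw [eq_C_of_natDegree_eq_zero (show c.natDegree = 0 by omega), derivative_C] at hc
    exact hg (C_eq_zero.1 hc.symm)
  have k1 : (C a : F[X]) * C a⁻¹ = 1 := by rw [← C_mul, mul_inv_cancel₀ ha, C_1]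
  have k2 : (C d : F[X]) * C d⁻¹ = 1 := by rw [← C_mul, mul_inv_cancel₀ hd, C_1]
  obtain ⟨n₀, hn⟩ := orbit hK (a := C a) (c := c) (d := C d) (by nlinarith) (C_ne_zero.2 hd)
    (fun e => by
      have h := der_sq e
      rw [derivative_C_mul, hc, ← C_mul, C_eq_zero] at h
      exact mul_ne_zero ha hg h)
    ⟨0, C d⁻¹ * c, by linear_combination (-c) * k2, by
      rw [zero_mul, isCoprime_zero_left]
      exact (unitC ha).mul (unitC hd)⟩
  have H : ∀ b : F, ∃ h : F[X], c.comp (C 1 * X + C b) = c + C a * h ^ 2 := fun b => by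
    obtain ⟨h, hh⟩ := sq_of_der (f := C a⁻¹ * (c.comp (C 1 * X + C b) - c)) (by
      rw [derivative_C_mul, derivative_sub, derivative_comp, hc]
      simp)
    exact ⟨h, by linear_combination C a * hh - (c.comp (C 1 * X + C b) - c) * k1⟩
  choose h hh using H
  refine ⟨n₀, fun n h1 => hn n h1 (big (S := Finset.univ) (f := h) (D := c.natDegree)
    (fun b _ => ⟨RingHom.id F, 1, b, 1, 1, one_ne_zero, by simp, by simp, by
      rw [map_id, hh, one_pow, mul_one, C_1, one_mul]⟩)
    (fun b _ => ⟨c - C (c.eval b), fun e => ?_, by rw [natDegree_sub_C], fun b' _ e => ?_⟩) hq)⟩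
  · have := congrArg natDegree e
    rw [natDegree_sub_C, natDegree_zero] at this
    omega
  · have h3 := congrArg (eval 0) ((hh b').trans (e ▸ (hh b).symm))
    simp only [eval_comp, eval_add, eval_mul, eval_C, eval_X, mul_zero, zero_add] at h3
    rw [IsRoot, eval_sub, eval_C, h3, sub_self]

theorem scal {K : ℕ} (hK : QP F K) (h2 : 2 ≤ K) {α δ γ : F} {i j m : ℕ} {e : F[X]} (hα : α ≠ 0)
    (hδ : δ ≠ 0) (hγ : γ ≠ 0) (he : e ≠ 0) (ho : Odd (i + m))
    (hq : K * (2 * e.natDegree + i + m) < Fintype.card F - 1)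
    (hx : ∃ x y : F[X], C α * X ^ i * x ^ 2 + (C γ * X ^ m + C α * X ^ i * e ^ 2) =
      C δ * X ^ j * y ∧ IsCoprime (x * y) (C α * X ^ i * (C δ * X ^ j))) :
    ∃ n₀ : ℕ, ∀ n, n₀ ≤ n → 2 * n + i ≡ m [MOD Fintype.card F - 1] →
      Pair F (C α * X ^ i) (C γ * X ^ m + C α * X ^ i * e ^ 2) (C δ * X ^ j) n := by
  classical
  obtain ⟨t, ht⟩ := ho
  obtain ⟨n₀, hn⟩ := orbit hK (a := C α * X ^ i) (c := C γ * X ^ m + C α * X ^ i * e ^ 2)
    (d := C δ * X ^ j) (fun h => by
      have : 2 * 1 ≤ K * (2 * e.natDegree + i + m) := Nat.mul_le_mul h2 (by omega)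
      omega)
    (mul_ne_zero (C_ne_zero.2 hδ) (pow_ne_zero _ X_ne_zero))
    (fun h => by
      have h1 := der_sq h
      have h3 := der_sq (f := (C α * X ^ i * e) * (C α * X ^ i * e)) ⟨_, rfl⟩
      rw [show C α * X ^ i * (C γ * X ^ m + C α * X ^ i * e ^ 2) = C (α * γ) * X ^ (i + m) +
        (C α * X ^ i * e) * (C α * X ^ i * e) by rw [C_mul]; ring, derivative_add, h3, add_zero,
        derivative_C_mul_X_pow, ht] at h1
      have h4 : ((2 * t + 1 : ℕ) : F) = 1 := by
        have : ((2 : ℕ) : F) = 0 := CharP.cast_eq_zero F 2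
        rw [Nat.cast_add, Nat.cast_mul, this, zero_mul, zero_add, Nat.cast_one]
      rw [h4, mul_one] at h1
      exact mul_ne_zero (C_ne_zero.2 (mul_ne_zero hα hγ)) (pow_ne_zero _ X_ne_zero) h1) hx
  refine ⟨n₀, fun n h1 hm => hn n h1 (big (S := Finset.univ.erase 0)
    (f := fun r => e + C (r ^ n)⁻¹ * e.comp (C r * X + C 0)) (D := 2 * e.natDegree + i + m)
    (fun r hr => ?_) (fun r hr => ⟨C (r ^ m) * X ^ (2 * e.natDegree + i) -
      C (r ^ (2 * e.natDegree + i)) * X ^ m, fun h => ?_, ?_, fun r' hr' h => ?_⟩)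
    (by rwa [Finset.card_erase_of_mem (Finset.mem_univ _), Finset.card_univ]))⟩
  · have r0 := Finset.ne_of_mem_erase hr
    have r1 : r ^ (2 * n + i) = r ^ m :=
      pow_eq_pow_of_modEq hm (FiniteField.pow_card_sub_one_eq_one r r0)
    have k1 : (C r : F[X]) ^ n * C (r ^ n)⁻¹ = 1 := by
      rw [← C_pow, ← C_mul, mul_inv_cancel₀ (pow_ne_zero _ r0), C_1]
    have k2 : (C r : F[X]) ^ (2 * n + i) = C r ^ m := by rw [← C_pow, r1, C_pow]
    refine ⟨RingHom.id F, r, 0, r ^ i, r ^ j, r0, ?_, ?_, ?_⟩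
    · simp only [map_id, mul_comp, C_comp, pow_comp, X_comp, C_0, add_zero, C_pow]
      ring
    · simp only [map_id, mul_comp, C_comp, pow_comp, X_comp, C_0, add_zero, C_pow]
      ring
    · simp only [map_id, add_comp, mul_comp, C_comp, pow_comp, X_comp, C_0, add_zero, C_pow, C_mul]
      generalize e.comp (C r * X) = w
      linear_combination (-(C γ * X ^ m)) * k2 -
        (C α * X ^ i * C r ^ i * w ^ 2 * (C r ^ n * C (r ^ n)⁻¹ + 1)) * k1 -
        (C r ^ i * C r ^ (2 * n) * C α * X ^ i * (e ^ 2 + e * (C (r ^ n)⁻¹ * w))) * two_eq (F := F)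
  · have h3 := congrArg (fun p => coeff p (2 * e.natDegree + i)) h
    simp only [coeff_sub, coeff_C_mul_X_pow, if_true, coeff_zero] at h3
    rw [if_neg (by omega), sub_zero] at h3
    exact pow_ne_zero _ (Finset.ne_of_mem_erase hr) h3
  · exact (natDegree_sub_le _ _).trans (max_le ((natDegree_C_mul_X_pow_le _ _).trans (by omega))
      ((natDegree_C_mul_X_pow_le _ _).trans (by omega)))
  · have r0 := Finset.ne_of_mem_erase hr
    have r0' := Finset.ne_of_mem_erase hr'
    have r1 : r ^ (2 * n + i) = r ^ m :=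
      pow_eq_pow_of_modEq hm (FiniteField.pow_card_sub_one_eq_one r r0)
    have r1' : r' ^ (2 * n + i) = r' ^ m :=
      pow_eq_pow_of_modEq hm (FiniteField.pow_card_sub_one_eq_one r' r0')
    have h3 := congrArg leadingCoeff (add_left_cancel h)
    rw [leadingCoeff_mul, leadingCoeff_mul, leadingCoeff_C, leadingCoeff_C,
      leadingCoeff_comp (by rw [natDegree_linear r0']; exact one_ne_zero),
      leadingCoeff_comp (by rw [natDegree_linear r0]; exact one_ne_zero),
      leadingCoeff_linear r0, leadingCoeff_linear r0'] at h3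
    have h4 : r ^ n * r' ^ e.natDegree = r' ^ n * r ^ e.natDegree := by
      have h5 := leadingCoeff_ne_zero.2 he
      field_simp at h3
      linear_combination h3
    rw [IsRoot, eval_sub, eval_mul, eval_mul, eval_C, eval_C, eval_pow, eval_pow, eval_X, ← r1,
      ← r1']
    linear_combination (r ^ i * r' ^ i * (r ^ n * r' ^ e.natDegree + r' ^ n * r ^ e.natDegree)) * h4

end Pool.Agent.MP_f37147_nt.Ex
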