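import Mathlib
import Pool.Agent.Mg.Ff37147.G40492e

/- Prime pairs over `F[X]`: the theorem for tuples, in a residue class. -/

set_option autoImplicit false
set_option linter.unusedSectionVars false

namespace Pool.Agent.PPf

open Polynomial Finset Pool.Agent.MP_4fffd4_nt Pool.Agent.MP_c853c5_nt Pool.Agent.MP_43e117_nt
open scoped BigOperators

/-- The theorem for tuples, with the modulus and the class given. -/
def STupleW (F : Type) [Field F] [Fintype F] [CharP F 2] (k w : ℕ) : Prop :=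
  ∀ (a c d W W' x v : F[X]) (h : Fin k → F[X]) (ρ : F[X] → Option (Fin k) → F[X]),
    Function.Injective h → ¬ IsSquare (a * c) → W.Monic → W = d * W' →
    (∀ P : F[X], Irreducible P → P.natDegree ≤ w ∨ P ∣ a * d → P ∣ W') →
    (∀ l l', l ≠ l' → ∀ P : F[X], Irreducible P → P ∣ h l + h l' → P ∣ W) →
    a * x ^ 2 + c = d * v → IsCoprime v W' → (∀ l, IsCoprime (x + h l) W) → Roots W ρ →
    (∀ P l, ρ P (some l) = h l) →
    (∀ P : F[X], Irreducible P → ¬ P ∣ W → ∀ f, P ∣ f - ρ P none ↔ P ∣ a * f ^ 2 + c) →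
    ∃ n₀ : ℕ, ∀ n, n₀ ≤ n → ∃ f ∈ monF F n,
      (W ∣ f - x ∧ ∃ Q, Irreducible Q ∧ a * f ^ 2 + c = d * Q) ∧ ∃ l, Irreducible (f + h l)

open TupleX Filter in
theorem sTupleW (hPack : SPack) (hFin : SFin) {CT : ℝ} (hCT : 0 < CT) {C₀ : ℕ} (hC₀ : 0 < C₀) :
    ∃ k w : ℕ, 1 ≤ k ∧ ∀ (F : Type) [Field F] [Fintype F] [CharP F 2],
      (∃ n₀, Pool.Agent.MP_f37147_nt.CoreSt F C₀ n₀) → SGlow F → SGup F → SEq F →
      SOne F → SQuad F → SPair F CT → STupleW F k w := by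
  obtain ⟨c, hc⟩ : ∃ c, c = Real.exp (-32) := ⟨_, rfl⟩
  have c0 : 0 < c := hc ▸ Real.exp_pos _
  have c1 : c ≤ 1 := hc ▸ Real.exp_le_one_iff.2 (by norm_num)
  obtain ⟨N₀, hN₀⟩ := exists_nat_ge (100000 * CT / c)
  obtain ⟨N, N1, N2, N3⟩ : ∃ N : ℕ, 100000 ≤ N ∧ 16 * C₀ ≤ N ^ 2 ∧ 100000 * CT / c ≤ N :=
    ⟨N₀ + 100000 + 16 * C₀, by omega, le_trans (by omega) (Nat.le_self_pow two_ne_zero _),
      hN₀.trans (by exact_mod_cast (by omega))⟩
  have N0 : (1 : ℝ) ≤ N := by exact_mod_cast (by omega)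
  have N4 : (1 : ℝ) ≤ (N : ℝ) ^ 2 := one_le_pow₀ N0
  obtain ⟨β, hβ⟩ : ∃ β, β = c / (N : ℝ) ^ 2 := ⟨_, rfl⟩
  have β0 : 0 < β := by rw [hβ]; positivity
  have β1 : β ≤ 1 := by rw [hβ, div_le_one (by positivity)]; linarith
  obtain ⟨ε, hε⟩ : ∃ ε, ε = β / 100000 := ⟨_, rfl⟩
  have ε0 : 0 < ε := by rw [hε]; positivity
  have hκ : CT / (N : ℝ) ^ 3 ≤ ε := by
    rw [div_le_iff₀ c0] at N3
    rw [hε, hβ, div_le_iff₀ (by positivity)]
    calc CT ≤ N * c / 100000 := by linarith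
      _ = _ := by field_simp
  obtain ⟨k, τ, η, k2, τ0, τ1, η0, HP⟩ := hPack c (Real.exp 3) ε (100000 * (N : ℝ) ^ 2 / β) c0
    (hc ▸ Real.exp_le_exp.2 (by norm_num)) ε0 (by linarith) (by positivity)
  obtain ⟨w, w1, w2, w3⟩ : ∃ w : ℕ, 15 ≤ w ∧ 1 / (2 : ℝ) ^ w ≤ η ∧ (k : ℝ) + 5 ≤ 2 ^ w := by
    obtain ⟨m, hm⟩ := exists_nat_ge (1 / η)
    have h1 : ((m + k + 15 : ℕ) : ℝ) ≤ 2 ^ (m + k + 15) := by
      exact_mod_cast Nat.lt_two_pow_self.le
    have h2 : (0 : ℝ) ≤ m := Nat.cast_nonneg m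
    have h3 : (0 : ℝ) ≤ k := Nat.cast_nonneg k
    push_cast at h1
    exact ⟨m + k + 15, by omega, (one_div_le (by positivity) η0).2 (by linarith), by linarith⟩
  refine ⟨k, w, by omega, fun F _ _ _ ⟨n₁, hcore⟩ hGl hGu hEq hOne hQuad hPair
    a cc d W W' x v h ρ hinj hsq W1 W2 W3 W4 W5 W6 W7 W8 W9 W10 => ?_⟩
  classical
  have hWw : ∀ P : F[X], Irreducible P → P.natDegree ≤ w → P ∣ W := fun P h1 h2 =>
    W2 ▸ (W3 P h1 (Or.inl h2)).mul_left d
  obtain ⟨V0, V1⟩ := VS_pos W1.ne_zero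
  choose H H0 n₂ HH using fun (p : {p : Fin k × Fin k // p.1 ≠ p.2}) =>
    hPair (Option (Fin k)) N (h p.1.1) (h p.1.2) W N1 (fun e => p.2 (hinj e)) W1.ne_zero
      fun P h1 h2 => h2.elim (fun h3 => hWw P h1 (by omega)) (W4 _ _ p.2 P h1)
  obtain ⟨m, hm⟩ := exists_nat_ge (((W.natDegree : ℝ) + 1) / (τ * VS (pf W)))
  have hN2 : 0 < N ^ 2 := by positivity
  refine eventually_atTop.1 (((((((((eventually_all.2 fun p => (eventually_ge_atTop (n₂ p)).and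
    (ev_le (F := F) (qq F W.natDegree / ε) (H0 p))).and
    (ev_le (F := F) (qq F W.natDegree / ε * 4) (H := 4) (by norm_num))).and
    (ev_le (F := F) (qq F W.natDegree / ε) (H := 16 * C₀) (by omega))).and
    (ev_div (a.natDegree + cc.natDegree + n₁) (H := 16 * C₀) (by omega))).and
    (ev_div (m + W.natDegree + k + 1) (H := N ^ 2 * 16) (by omega))).and
    (ev_div 1 (H := 8 * (128 * (2 * N ^ 4) + 136)) (by omega))).and
    (eventually_all.2 fun l => eventually_gt_atTop (h l).natDegree)).and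
    (eventually_ge_atTop 1)).mono fun n hn => ?_)
  obtain ⟨⟨⟨⟨⟨⟨⟨e1, e2⟩, e3⟩, e4⟩, e5⟩, e6⟩, e7⟩, e8⟩ := hn
  have n1 : (1 : ℝ) ≤ n := by exact_mod_cast e8
  rw [← Nat.div_div_eq_div_mul] at e5
  have r1 : n / N ^ 2 ≤ n / (16 * C₀) := Nat.div_le_div_left N2 (by omega)
  have r2 : n / N ^ 2 ≤ n / 16 := Nat.div_le_div_left (by omega) (by omega)
  have r3 : n < N ^ 2 * (n / N ^ 2 + 1) := Nat.lt_mul_div_succ n hN2
  have r4 : 15 * (n / (16 * C₀)) ≤ (n - n / N ^ 2) / C₀ := by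
    rw [Nat.le_div_iff_mul_le hC₀]
    have h1 := Nat.div_mul_le_self n (16 * C₀)
    have h2 : n / (16 * C₀) ≤ n / (16 * C₀) * C₀ := Nat.le_mul_of_pos_right _ hC₀
    generalize n / (16 * C₀) = u at *
    have h3 : u * (16 * C₀) = 16 * (u * C₀) := by ring
    rw [mul_assoc]
    omega
  have r5 : n / (16 * C₀) ≤ n / 16 := Nat.div_le_div_left (by omega) (by omega)
  have hlo : whi (2 * N ^ 4) n ≤ 16 * wlo (2 * N ^ 4) n := by
    unfold wlo whi
    rw [mul_comm 8, ← Nat.div_div_eq_div_mul] at e6 ⊢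
    omega
  obtain ⟨R, hR⟩ : ∃ R, R = n / N ^ 2 := ⟨_, rfl⟩
  obtain ⟨D, hD⟩ : ∃ D, D = R / 16 := ⟨_, rfl⟩
  rw [← hR] at r1 r2 r3 r4 e5
  rw [← hD] at e5
  have r6 : (n : ℝ) ≤ 32 * (N : ℝ) ^ 2 * D := by
    have : N ^ 2 * (R + 1) ≤ N ^ 2 * (32 * D) := Nat.mul_le_mul_left _ (by omega)
    have h2 : n ≤ 32 * N ^ 2 * D := by nlinarith
    exact_mod_cast h2
  have hτ : (W.natDegree : ℝ) + 1 ≤ τ * VS (pf W) * D := by
    rw [div_le_iff₀ (by positivity)] at hm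
    have : (m : ℝ) ≤ D := by exact_mod_cast (by omega)
    calc _ ≤ m * (τ * VS (pf W)) := hm
      _ ≤ D * (τ * VS (pf W)) := by gcongr
      _ = _ := by ring
  have hτ' : τ * VS (pf W) * D ≤ τ * D := by
    rw [mul_right_comm]
    exact mul_le_of_le_one_right (by positivity) V1
  have hW0 : (0 : ℝ) ≤ W.natDegree := Nat.cast_nonneg _
  obtain ⟨G1, G2, G3⟩ := hGu W (wlo (2 * N ^ 4) n) (whi (2 * N ^ 4) n) D W1.ne_zero
  have G0 := fun t => hGl W (wlo (2 * N ^ 4) n) (whi (2 * N ^ 4) n) D t W1.ne_zero e6 hlo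
  have hPs : ∀ P ∈ prm F W (wlo (2 * N ^ 4) n) (whi (2 * N ^ 4) n) D, (P.Monic ∧ Irreducible P ∧
      ¬ P ∣ W) ∧ P.natDegree < n ∧
      (P.natDegree < wlo (2 * N ^ 4) n ∨ whi (2 * N ^ 4) n < P.natDegree) := fun P hP => by
    rw [prm, mem_filter, mem_irrLE] at hP
    exact ⟨⟨hP.1.1, hP.1.2.1, hP.2.1⟩, by omega, hP.2.2⟩
  generalize prm F W (wlo (2 * N ^ 4) n) (whi (2 * N ^ 4) n) D = Ps at G0 G1 G2 G3 hPs
  obtain ⟨G3, G4⟩ := G3 w hWw
  have hp : ∀ P, (k : ℝ) + 5 ≤ nm Ps P := fun P => w3.trans (G4 P)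
  obtain ⟨Y, P₀, r, σ, y1, y2, y3, y4, y5, y6, y7, f0, f1, f2, f3⟩ :=
    HP Ps (nm Ps) (dP Ps) (VS (pf W)) D hp V0 V1 (by linarith)
      (fun t h1 h2 => by
        have h3 : W.natDegree + 1 ≤ t := by exact_mod_cast hτ.trans (hτ'.trans h1)
        exact ⟨hc ▸ G0 t h2, G1 t (by omega) (by omega)⟩)
      (G2 (by omega) (by omega)) (G3.trans w2)
  have ctx : Ctx ρ Ps W Y (2 * D) R := ⟨W1, fun P hP => (hPs P hP).1, W8, y1, y2, by omega, by
    rw [Fintype.card_option, Fintype.card_fin]; omega⟩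
  have hu := adm_inv (p := nm Ps) fun P => by
    have := hp P
    have : (0 : ℝ) ≤ k := Nat.cast_nonneg k
    linarith
  have hZ : 0 < qq F n / qq F W.natDegree := div_pos (qq_pos _) (qq_pos _)
  have hZ' : 0 ≤ qq F n / qq F W.natDegree * (VS (pf W))⁻¹ := by positivity
  have hS : ∀ p : F[X] → Prop, 0 ≤ ∑ f ∈ monF F n, wt ρ ∅ Ps W x Y f * ind (p f) := fun p =>
    sum_nonneg fun f _ => mul_nonneg (wt_nonneg _ _ _ _ _ _ _) (ind_nonneg _)
  have hq : 0 ≤ qq F W.natDegree / ε := div_nonneg (qq_pos _).le ε0.le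
  refine finish hFin (monF F n) k (wt ρ ∅ Ps W x Y) (fun l f => Irreducible (f + h l))
    (fun f => W ∣ f - x ∧ ∃ Q, Irreducible Q ∧ a * f ^ 2 + cc = d * Q) (n := n) (σ := σ)
    (fun f _ => wt_nonneg _ _ _ _ _ _ _) hZ y3 y4 V0 V1 β0 β1 n1 hε ?_ ?_ ?_ (fun l => ?_)
    (fun l l' hl => ?_) ?_
  · calc 3000 * n * VS (pf W) ≤ 3000 * (32 * (N : ℝ) ^ 2 * D) * VS (pf W) := by gcongr
      _ ≤ β * (100000 * (N : ℝ) ^ 2 / β * VS (pf W) * D) := by
          have : 0 ≤ (N : ℝ) ^ 2 * D * VS (pf W) := by positivity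
          field_simp
          nlinarith
      _ ≤ _ := by gcongr
  · calc β * n * VS (pf W) ≤ β * (32 * (N : ℝ) ^ 2 * D) * VS (pf W) := by gcongr
      _ = 32 * (c * VS (pf W) * D) := by rw [hβ]; field_simp
      _ ≤ _ := by gcongr
  · rw [(hEq _ ρ Ps W x Y _ R n ctx (by omega)).1]
    exact mul_le_mul_of_nonneg_left (f0 _ fun P => Or.inr (by
      rw [sub_self, abs_zero]
      exact div_nonneg (by norm_num) (qq_pos _).le)) hZ.le
  · refine le_trans ?_ (hOne _ ρ (some l) Ps (h l) W x Y _ R n ctx (by omega) (e7 l)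
      (fun P hP => (hPs P hP).2.1) (fun P => W9 P l) (W7 l))
    exact sub_le_sub (mul_le_mul_of_nonneg_left (f1 l _ hu) hZ')
      (err_le (u := n / 4) ε0 (by positivity) (by omega) (by rw [← mul_assoc]; exact e2))
  · have h1 := HH ⟨(l, l'), hl⟩ n (e1 _).1 ρ (some l) (some l') Ps x Y (2 * D)
      ((1 + ε) * (P₀ * r ^ 2)) (hR ▸ ctx) (fun P => W9 P l) (fun P => W9 P l') (W7 l) (W7 l')
      (fun P hP => (hPs P hP).2) (fun f hf j => ?_) (by positivity) fun u hu => f2 l l' u hl hu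
    · refine h1.trans (add_le_add ?_ ?_)
      · rw [show qq F n * ((VS (pf W))⁻¹ ^ 2 * ((1 + ε) * (P₀ * r ^ 2) / qq F W.natDegree)) =
          qq F n / qq F W.natDegree * (VS (pf W))⁻¹ ^ 2 * ((1 + ε) * (P₀ * r ^ 2)) by ring]
        gcongr
      · have h2 := err_le (F := F) (n := n) (a := 0) (b := n / H ⟨(l, l'), hl⟩) (x := 1) ε0
          zero_le_one (zero_add _).le (le_trans (by gcongr) (e1 ⟨(l, l'), hl⟩).2)
        rwa [qq_zero, one_mul, one_mul] at h2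
    · obtain ⟨f1, f2⟩ := mem_monF.1 hf
      rcases j with _ | j
      · refine ⟨a * f ^ 2 + cc, fun e => hsq ⟨a * f, ?_⟩, ?_, fun P hP =>
          (W10 P (hPs P hP).1.2.1 (hPs P hP).1.2.2 f).1⟩
        · have := add_add_self cc (a * f ^ 2)
          linear_combination a * e - a * this
        · refine (natDegree_add_le _ _).trans (max_le (natDegree_mul_le.trans ?_) (by omega))
          rw [natDegree_pow]
          omega
      · obtain ⟨g1, g2⟩ := mem_monF.1 (add_mem_mon (h := h j)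
          (degree_le_natDegree.trans_lt (by exact_mod_cast e7 j)) hf)
        refine ⟨f + h j, g1.ne_zero, by omega, fun P _ e => ?_⟩
        rwa [W9, CharTwo.sub_eq_add] at e
  · have h1 := hQuad _ ρ none Ps a cc d W W' x v Y _ R n C₀ n₁ hcore ctx (by omega)
      (fun P hP => (hPs P hP).2.1) hsq W2 (fun P h1 h2 => W3 P h1 (Or.inr h2)) W5 W6 W10
      (by omega) (by omega) (by omega)
    have h2 := err_le (F := F) (n := n) (a := 2 * R) (b := (n - R) / C₀) (u := n / (16 * C₀))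
      (x := 1) ε0 zero_le_one (by omega) (le_trans (by gcongr) e3)
    rw [one_mul] at h2
    have h5 : ∑ f ∈ monF F n, wt ρ ∅ Ps W x Y f *
        ind (W ∣ f - x ∧ ∃ Q, Irreducible Q ∧ a * f ^ 2 + cc = d * Q) =
        ∑ f ∈ monF F n, wt ρ ∅ Ps W x Y f * ind (∃ Q, Irreducible Q ∧ a * f ^ 2 + cc = d * Q) :=
      sum_congr rfl fun f _ => by
        by_cases e : W ∣ f - x
        · simp only [e, true_and]
        · rw [wt, ind_neg e, zero_mul, zero_mul, zero_mul]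
    rw [h5]
    refine ((sub_le_sub (mul_le_mul_of_nonneg_left (f3 _ hu) hZ') h2).trans h1).trans
      (mul_le_mul_of_nonneg_right ?_ (hS _))
    have h3 : (a.natDegree : ℝ) ≤ n := by exact_mod_cast (by omega)
    have h4 : (0 : ℝ) ≤ d.natDegree := Nat.cast_nonneg _
    linarith

theorem tupleW : ∃ k w : ℕ, 1 ≤ k ∧ ∀ (F : Type) [Field F] [Fintype F] [CharP F 2],
    STupleW F k w := by
  obtain ⟨C, hC, hT⟩ := sTwin
  obtain ⟨C₀, hC₀, hcore⟩ := Pool.Agent.MP_f37147_nt.core.{0}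
  obtain ⟨k, w, hk, H⟩ := sTupleW (sPack sMay sIdeal (sModel sLoc sPert)) sFin hC hC₀
  refine ⟨k, w, hk, fun F _ _ _ => ?_⟩
  have t := sTerm F (sLocM F)
  have e := sEq F t (sCard F)
  exact H F (hcore F) (sGlow F) (sGup F) e (sOne F e (sPnt F (sWeil F)))
    (sQuad F e (sQap F))
    (sPair F C (hT F (sLU F (sPar F) (sTypeU F) (sTypeL F (sTwo F)))
      (sCent F (sClass F (sFreq F))) (sMass F (sGG F) (sLineW F)) (sMod F (sFact F) (sRestr F))
      (sTotal F (sCase F) sOmega)) (sBd F) (sInstF F (sCard F)) (sInstL F t (sCard F)) (sCard F))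

/-- The theorem for tuples in a residue class modulo `m`. -/
def STupleM (F : Type) [Field F] [Fintype F] [CharP F 2] (k : ℕ) : Prop :=
  ∀ (a c m x₀ : F[X]) (h : Fin k → F[X]), Function.Injective h → m ≠ 0 → ¬ IsSquare (a * c) →
    (∀ R : F[X], Irreducible R →
      ∃ t, ¬ R ∣ a * (x₀ + m * t) ^ 2 + c ∧ ∀ l, ¬ R ∣ x₀ + m * t + h l) →
    ∃ n₀ : ℕ, ∀ n, n₀ ≤ n → ∃ f ∈ monF F n,
      m ∣ f - x₀ ∧ Irreducible (a * f ^ 2 + c) ∧ ∃ l, Irreducible (f + h l)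

open RootX in
theorem tupleM : ∃ k : ℕ, 1 ≤ k ∧ ∀ (F : Type) [Field F] [Fintype F] [CharP F 2],
    STupleM F k := by
  obtain ⟨k, w, hk, H⟩ := tupleW
  refine ⟨k, hk, fun F _ _ _ a c m x₀ h hh hm0 hac hadm => ?_⟩
  have h2 : (2 : F[X]) = 0 := by exact_mod_cast CharP.cast_eq_zero F[X] 2
  obtain ⟨g, g0, g1, g2, g3, g4⟩ := exists_mod w hh one_ne_zero hac
  have hdg : m * g ≠ 0 := mul_ne_zero hm0 g0
  obtain ⟨T, hT⟩ := exists_shift (m * g) hdg
    (fun R t => ¬ R ∣ a * (x₀ + m * t) ^ 2 + c ∧ ∀ l, ¬ R ∣ x₀ + m * t + h l) hadm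
  obtain ⟨r, hr⟩ := exists_root a c
  have hu : IsUnit (C (m * g).leadingCoeff⁻¹) :=
    isUnit_C.2 (IsUnit.mk0 _ (inv_ne_zero (leadingCoeff_ne_zero.2 hdg)))
  have hm : (m * g * C (m * g).leadingCoeff⁻¹).Monic := monic_mul_leadingCoeff_inv hdg
  have k1 : ∀ P : F[X], P ∣ g → P ∣ m * g * C (m * g).leadingCoeff⁻¹ := fun P e =>
    (e.mul_left _).mul_right _
  have k2 : ∀ P : F[X], P ∣ m * g * C (m * g).leadingCoeff⁻¹ → P ∣ m * g :=
    fun P e => (hu.dvd_mul_right).1 e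
  obtain ⟨n₀, hn⟩ := H F a c 1 (m * g * C (m * g).leadingCoeff⁻¹)
    (m * g * C (m * g).leadingCoeff⁻¹) (x₀ + m * T) (a * (x₀ + m * T) ^ 2 + c) h
    (fun P o => o.elim (r P) h) hh hac hm (one_mul _).symm
    (fun P hP e => k1 P (e.elim (g4 P hP) fun e => e.trans g1))
    (fun l l' e P _ e' => k1 P (e'.trans (g2 l l' e))) (one_mul _).symm
    (isCoprime_of_irreducible_dvd (fun e => hm.ne_zero e.2) fun P hP e e' => by
      obtain ⟨Q, t, q1, q2, q3⟩ := hT P hP (k2 P e')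
      have h1 := dvd_sub (q1.trans e) (q3.mul_left (a * m * (2 * x₀ + m * (T + t))))
      rw [show a * (x₀ + m * T) ^ 2 + c - a * m * (2 * x₀ + m * (T + t)) * (T - t) =
        a * (x₀ + m * t) ^ 2 + c by ring] at h1
      exact q2.1 h1)
    (fun l => isCoprime_of_irreducible_dvd (fun e => hm.ne_zero e.2) fun P hP e e' => by
      obtain ⟨Q, t, q1, q2, q3⟩ := hT P hP (k2 P e')
      have h1 := dvd_sub (q1.trans e) (q3.mul_left m)
      rw [show x₀ + m * T + h l - m * (T - t) = x₀ + m * t + h l by ring] at h1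
      exact q2.2 l h1)
    (fun P hP hW l l' e => by
      have ha : ¬ P ∣ a := fun e => hW (k1 P ((e.mul_right 1).trans g1))
      rcases l with _ | l <;> rcases l' with _ | l'
      · rfl
      · exact absurd (k1 P (((hr P hP ha (h l')).1 (dvd_sub_comm.1 e)).trans (g3 l'))) hW
      · exact absurd (k1 P (((hr P hP ha (h l)).1 e).trans (g3 l))) hW
      · by_contra hne
        have h1 : P ∣ h l - h l' := e
        rw [show h l - h l' = h l + h l' by linear_combination (-h l') * h2] at h1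
        exact hW (k1 P (h1.trans (g2 l l' fun e => hne (by rw [e])))))
    (fun _ _ => rfl)
    (fun P hP hW f => hr P hP (fun e => hW (k1 P ((e.mul_right 1).trans g1))) f)
  refine ⟨n₀, fun n h1 => ?_⟩
  obtain ⟨f, f1, ⟨f2, Q, q1, q2⟩, f3⟩ := hn n h1
  refine ⟨f, f1, ?_, by rwa [q2, one_mul], f3⟩
  have h3 := dvd_add ((((dvd_refl m).mul_right g).mul_right _).trans f2) (dvd_mul_right m T)
  rwa [show f - (x₀ + m * T) + m * T = f - x₀ by ring] at h3

end Pool.Agent.PPf
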