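import Mathlib
import Pool.Agent.MP_f37147_nt.Ex.Fam
import Pool.Agent.MP_f37147_nt.Ex.TupM

/- Prime pairs over `F[X]`: the translation family in a residue class. -/

set_option autoImplicit false
set_option linter.unusedSectionVars false

namespace Pool.Agent.MP_f37147_nt.Ex

open Polynomial

variable {F : Type} [Field F] [Fintype F] [CharP F 2]

theorem greedy (B : Finset F) (k : ℕ) (hk : k * B.card < Fintype.card F) :
    ∃ β : Fin k → F, ∀ i j, i ≠ j → β i + β j ∉ B := by
  classical
  induction k with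
  | zero => exact ⟨fun i => i.elim0, fun i => i.elim0⟩
  | succ k ih =>
    have h1 : k * B.card ≤ (k + 1) * B.card := Nat.mul_le_mul_right _ (Nat.le_succ k)
    obtain ⟨β, hβ⟩ := ih (by omega)
    obtain ⟨b, -, hb⟩ := Finset.exists_mem_notMem_of_card_lt_card
      (s := Finset.univ.biUnion fun i : Fin k => B.image fun z => z - β i) (t := Finset.univ) (by
        rw [Finset.card_univ]
        refine lt_of_le_of_lt (Finset.card_biUnion_le.trans ?_) (h1.trans_lt hk)
        refine (Finset.sum_le_card_nsmul _ _ B.card fun i _ => Finset.card_image_le).trans ?_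
        rw [Finset.card_univ, Fintype.card_fin, smul_eq_mul])
    have h2 : ∀ i, b + β i ∉ B := fun i e => hb (Finset.mem_biUnion.2 ⟨i, Finset.mem_univ _,
      Finset.mem_image.2 ⟨_, e, add_sub_cancel_right _ _⟩⟩)
    refine ⟨Fin.cons b β, fun i j => ?_⟩
    refine Fin.cases ?_ (fun i => ?_) i <;> refine Fin.cases ?_ (fun j => ?_) j <;> intro e
    · exact absurd rfl e
    · exact h2 j
    · rw [add_comm]; exact h2 i
    · exact hβ i j fun e' => e (by rw [e'])

open Classical in
theorem card_pre {L : Type} [Field L] [Algebra F L] {p : L[X]} (hp : p ≠ 0) (z : L) :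
    (Finset.univ.filter fun δ : F => p.IsRoot (z + algebraMap F L δ)).card ≤ p.natDegree := by
  refine le_trans (Finset.card_le_card_of_injOn (t := p.roots.toFinset)
    (fun δ => z + algebraMap F L δ) (fun δ hδ => ?_) fun δ _ δ' _ e => ?_)
    ((Multiset.toFinset_card_le _).trans (card_roots' p))
  · exact Finset.mem_coe.2 (Multiset.mem_toFinset.2 ((mem_roots hp).2
      (Finset.mem_filter.1 (Finset.mem_coe.1 hδ)).2))
  · exact (algebraMap F L).injective (add_left_cancel e)

/-- The set of bad differences. -/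
theorem bad {c M : F[X]} (s : F[X]) (hc : 1 ≤ c.natDegree) (hM : M ≠ 0) : ∃ B : Finset F,
    B.card ≤ (M.natDegree + 1) * (c.natDegree + M.natDegree) ∧ ∀ δ, δ ∉ B →
      c.eval δ ≠ c.eval 0 ∧ IsCoprime M (M.comp (X + C δ)) ∧
        IsCoprime M (c.comp (X + C δ) - s) := by
  classical
  obtain ⟨L, hL⟩ : ∃ L : Type, L = AlgebraicClosure F := ⟨_, rfl⟩
  subst hL
  have hM' : M.map (algebraMap F (AlgebraicClosure F)) ≠ 0 := map_ne_zero hM
  have hc' : ∀ u, c.map (algebraMap F (AlgebraicClosure F)) - C u ≠ 0 := fun u e => by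
    have := congrArg natDegree e
    rw [natDegree_sub_C, natDegree_map, natDegree_zero] at this
    omega
  have hZ : (M.map (algebraMap F (AlgebraicClosure F))).roots.toFinset.card ≤ M.natDegree :=
    (Multiset.toFinset_card_le _).trans ((card_roots' _).trans (natDegree_map _).le)
  refine ⟨(Finset.univ.filter fun δ : F => (c.map (algebraMap F (AlgebraicClosure F)) -
      C (aeval (0 : AlgebraicClosure F) c)).IsRoot (0 + algebraMap F _ δ)) ∪
    (M.map (algebraMap F (AlgebraicClosure F))).roots.toFinset.biUnion fun z =>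
      (Finset.univ.filter fun δ : F =>
        (M.map (algebraMap F (AlgebraicClosure F))).IsRoot (z + algebraMap F _ δ)) ∪
      Finset.univ.filter fun δ : F => (c.map (algebraMap F (AlgebraicClosure F)) -
        C (aeval z s)).IsRoot (z + algebraMap F _ δ), ?_, fun δ hδ => ?_⟩
  · refine (Finset.card_union_le _ _).trans ((add_le_add (card_pre (hc' _) 0)
      (Finset.card_biUnion_le.trans (Finset.sum_le_card_nsmul _ _
        (M.natDegree + c.natDegree) fun z _ => (Finset.card_union_le _ _).trans
          (add_le_add ((card_pre hM' z).trans (natDegree_map _).le) ((card_pre (hc' _) z).trans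
            (by rw [natDegree_sub_C, natDegree_map])))))).trans ?_)
    rw [natDegree_sub_C, natDegree_map, smul_eq_mul]
    have := Nat.mul_le_mul_right (M.natDegree + c.natDegree) hZ
    nlinarith
  · simp only [Finset.mem_union, Finset.mem_filter, Finset.mem_univ, true_and, Finset.mem_biUnion,
      Multiset.mem_toFinset, mem_roots hM', IsRoot, eval_sub, eval_C, eval_map_algebraMap,
      not_or, not_exists, not_and] at hδ
    refine ⟨fun e => hδ.1 ?_, ?_, ?_⟩
    · have h3 := aeval_algebraMap_apply (AlgebraicClosure F) (0 : F) c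
      rw [map_zero] at h3
      rw [zero_add, aeval_algebraMap_apply, h3, coe_aeval_eq_eval, coe_aeval_eq_eval, e, sub_self]
    · refine (isCoprime_iff_aeval_ne_zero_of_isAlgClosed F (AlgebraicClosure F) _ _).2 fun z => ?_
      by_cases e : aeval z M = 0
      · right
        rw [aeval_comp, map_add, aeval_X, aeval_C]
        exact (hδ.2 z e).1
      · exact Or.inl e
    · refine (isCoprime_iff_aeval_ne_zero_of_isAlgClosed F (AlgebraicClosure F) _ _).2 fun z => ?_
      by_cases e : aeval z M = 0
      · right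
        rw [map_sub, aeval_comp, map_add, aeval_X, aeval_C]
        exact (hδ.2 z e).2
      · exact Or.inl e

/-- Translations. -/
theorem trans_eq (b : F) : ∃ s : F[X] ≃+* F[X], (∀ g, s g = g.comp (X + C b)) ∧
    (∀ g, s (s g) = g) ∧ (∀ g, (s g).natDegree = g.natDegree) ∧ ∀ g, g.Monic → (s g).Monic := by
  obtain ⟨s, s1, s2, s3⟩ := sig (RingHom.id F) b one_ne_zero
  have e : ∀ g, s g = g.comp (X + C b) := fun g => by rw [s1, map_id, C_1, one_mul]
  refine ⟨s, e, fun g => ?_, s2, fun g hg => ?_⟩
  · rw [e, e, comp_assoc, add_comp, X_comp, C_comp,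
      show X + C b + C b = (X : F[X]) by linear_combination C b * two_eq (F := F), comp_X]
  · rw [Monic, s3, hg.leadingCoeff, map_one, one_pow, mul_one]

open Classical in
theorem avoid {k : ℕ} (hk : k + 1 < Fintype.card F) {R m : F[X]} (hR : Irreducible R)
    (hm : ¬ R ∣ m) {a : F[X]} (ha : ¬ R ∣ a) (c x : F[X]) (h : Fin k → F[X]) :
    ∃ t, ¬ R ∣ a * (x + m * t) ^ 2 + c ∧ ∀ l, ¬ R ∣ x + m * t + h l := by
  have key : ∀ τ τ' : F, R ∣ m * (C τ - C τ') → τ = τ' := fun τ τ' e => by
    by_contra hne
    rw [← C_sub, (unitC (sub_ne_zero.2 hne)).dvd_mul_right] at e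
    exact hm e
  obtain ⟨τ, -, hτ⟩ := Finset.exists_mem_notMem_of_card_lt_card
    (s := (Finset.univ.filter fun τ : F => R ∣ a * (x + m * C τ) ^ 2 + c) ∪
      Finset.univ.biUnion fun l : Fin k => Finset.univ.filter fun τ : F => R ∣ x + m * C τ + h l)
    (t := Finset.univ) (by
      rw [Finset.card_univ]
      refine lt_of_le_of_lt ((Finset.card_union_le _ _).trans ((add_le_add (Finset.card_le_one.2
        fun τ h1 τ' h2 => key τ τ' ?_) (Finset.card_biUnion_le.trans (Finset.sum_le_card_nsmul _ _ 1
          fun l _ => Finset.card_le_one.2 fun τ h1 τ' h2 => key τ τ' ?_))).trans ?_)) hk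
      · have h3 := dvd_sub (Finset.mem_filter.1 h1).2 (Finset.mem_filter.1 h2).2
        rw [show a * (x + m * C τ) ^ 2 + c - (a * (x + m * C τ') ^ 2 + c) =
          a * (m * (C τ - C τ')) ^ 2 by
            linear_combination (a * (x + m * C τ') * (m * (C τ - C τ'))) * two_eq (F := F)] at h3
        exact hR.prime.dvd_of_dvd_pow ((hR.prime.dvd_or_dvd h3).resolve_left ha)
      · have h3 := dvd_sub (Finset.mem_filter.1 h1).2 (Finset.mem_filter.1 h2).2
        rwa [show x + m * C τ + h l - (x + m * C τ' + h l) = m * (C τ - C τ') by ring] at h3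
      · rw [Finset.card_univ, Fintype.card_fin, smul_eq_mul]
        omega)
  simp only [Finset.mem_union, Finset.mem_filter, Finset.mem_univ, true_and, Finset.mem_biUnion,
    not_or, not_exists] at hτ
  exact ⟨C τ, hτ.1, hτ.2⟩

theorem cls {k : ℕ} (hT : Pool.Agent.PPf.STupleM F k) {a g : F} {c M r : F[X]} (ha : a ≠ 0)
    (hg : g ≠ 0) (hc : derivative c = C g) (hM : M ≠ 0)
    (hr : IsCoprime (r * (C a * r ^ 2 + c)) M)
    (hq : (k + 1) * ((M.natDegree + 1) * (c.natDegree + M.natDegree)) < Fintype.card F) :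
    ∃ n₀ : ℕ, ∀ n, n₀ ≤ n → ∃ P : F[X], P.Monic ∧ P.natDegree = n ∧ M ∣ P - r ∧
      Irreducible P ∧ Irreducible (C a * P ^ 2 + c) := by
  have h2 := two_eq (F := F)
  have hD : 1 ≤ c.natDegree := by
    by_contra h
    rw [eq_C_of_natDegree_eq_zero (show c.natDegree = 0 by omega), derivative_C] at hc
    exact hg (C_eq_zero.1 hc.symm)
  have hD' : 1 ≤ (M.natDegree + 1) * (c.natDegree + M.natDegree) :=
    Nat.mul_pos (by omega) (by omega)
  have k1 : (C a : F[X]) * C a⁻¹ = 1 := by rw [← C_mul, mul_inv_cancel₀ ha, C_1]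
  obtain ⟨B, B1, B2⟩ := bad (C a * r ^ 2 + c) hD hM
  obtain ⟨β, hβ⟩ := greedy B k (by nlinarith)
  choose s s1 s2 s3 s4 using fun l => trans_eq (β l)
  have sC : ∀ l u, s l (C u) = C u := fun l u => by rw [s1, C_comp]
  have ss : ∀ i j p, s i (s j p) = p.comp (X + C (β i + β j)) := fun i j p => by
    rw [s1, s1, comp_assoc, add_comp, X_comp, C_comp, C_add, add_assoc]
  have H : ∀ l, ∃ h : F[X], s l c = c + C a * h ^ 2 := fun l => by
    obtain ⟨h, hh⟩ := sq_of_der (f := C a⁻¹ * (s l c - c)) (by
      rw [s1, derivative_C_mul, derivative_sub, derivative_comp, hc]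
      simp)
    exact ⟨h, by linear_combination C a * hh - (s l c - c) * k1⟩
  choose h hh using H
  have M0 : ∀ l, s l M ≠ 0 := fun l e => hM ((s l).map_eq_zero_iff.1 e)
  have cop : ∀ i (p p' : F[X]), IsCoprime p p' → IsCoprime (s i p) (s i p') := fun i p p' e =>
    e.map (s i : F[X] →+* F[X])
  obtain ⟨x, hx⟩ := Ideal.exists_forall_sub_mem_ideal (I := fun l => Ideal.span {s l M})
    (fun i j e => (Ideal.isCoprime_span_singleton_iff _ _).2 (by
      have h3 := cop i _ _ (B2 _ (hβ i j e)).2.1
      rwa [← ss, s2] at h3)) fun l => s l r + h l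
  replace hx : ∀ l, s l M ∣ x - (s l r + h l) := fun l => Ideal.mem_span_singleton.1 (hx l)
  obtain ⟨n₀, hn⟩ := hT (C a) c (∏ l, s l M) x h
    (fun i j e => by
      by_contra hne
      have h3 : s i (s j c) = c := by rw [hh j, ← e, ← hh i, s2]
      have h4 := congrArg (eval 0) h3
      rw [ss, eval_comp, eval_add, eval_X, eval_C, zero_add] at h4
      exact (B2 _ (hβ i j hne)).1 h4)
    (Finset.prod_ne_zero_iff.2 fun l _ => M0 l)
    (fun e => by
      have h := der_sq e
      rw [derivative_C_mul, hc, ← C_mul, C_eq_zero] at h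
      exact mul_ne_zero ha hg h)
    (fun R hR => by
      by_cases e : R ∣ ∏ l, s l M
      · obtain ⟨i, -, hi⟩ := (hR.prime.dvd_finsetProd_iff _).1 e
        have h3 := hi.trans (hx i)
        have h4 := cop i _ _ hr
        rw [map_mul, map_add, map_mul, map_pow, sC, hh] at h4
        refine ⟨0, fun e' => hR.not_isUnit (h4.of_mul_left_right.isUnit_of_dvd' ?_ hi),
          fun l e' => ?_⟩
        · have h5 := dvd_sub e' (h3.mul_left (C a * (x + (s i r + h i))))
          rwa [show C a * (x + (∏ l, s l M) * 0) ^ 2 + c - C a * (x + (s i r + h i)) *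
            (x - (s i r + h i)) = C a * s i r ^ 2 + (c + C a * h i ^ 2) by
              linear_combination (C a * s i r * h i) * h2] at h5
        · have h5 := dvd_sub e' h3
          rw [show x + (∏ l, s l M) * 0 + h l - (x - (s i r + h i)) = s i r + h i + h l by
            ring] at h5
          by_cases e'' : i = l
          · rw [← e'', show s i r + h i + h i = s i r by linear_combination h i * h2] at h5
            exact hR.not_isUnit (h4.of_mul_left_left.isUnit_of_dvd' h5 hi)
          · have h6 := cop i _ _ (B2 _ (hβ i l e'')).2.2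
            rw [← ss, map_sub, s2, map_add, map_mul, map_pow, sC, hh, hh] at h6
            refine hR.not_isUnit (h6.isUnit_of_dvd' hi ?_)
            rw [show c + C a * h l ^ 2 - (C a * s i r ^ 2 + (c + C a * h i ^ 2)) =
              C a * (s i r + h i + h l) * (h l - s i r - h i) by
                linear_combination (C a * s i r * h i) * h2]
            exact (h5.mul_left _).mul_right _
      · exact avoid (by nlinarith) hR e (fun e' => hR.not_isUnit (isUnit_of_dvd_unit e' (unitC ha)))
          c x h)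
  obtain ⟨m', hm'⟩ := (Set.finite_range fun l => (h l).natDegree).bddAbove
  refine ⟨n₀ + m' + 1, fun n h1 => ?_⟩
  obtain ⟨f, f1, f2, f3, l, f4⟩ := hn n (by omega)
  have h3 : (h l).degree < (n : ℕ) := by
    have : (h l).natDegree ≤ m' := hm' ⟨l, rfl⟩
    exact degree_le_natDegree.trans_lt (Nat.cast_lt.2 (by omega))
  obtain ⟨g1, g2⟩ := Pool.Agent.MP_4fffd4_nt.mem_monF.1 (Pool.Agent.PPf.add_mem_mon h3 f1)
  refine ⟨s l (f + h l), s4 l _ g1, (s3 l _).trans g2, ?_,
    (MulEquiv.irreducible_iff (s l)).2 f4, ?_⟩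
  · have h4 := dvd_add ((Finset.dvd_prod_of_mem (fun l => s l M) (Finset.mem_univ l)).trans f2)
      (hx l)
    rw [show f - x + (x - (s l r + h l)) = f + h l - s l r by linear_combination (-h l) * h2] at h4
    have h5 := map_dvd (s l) h4
    rwa [s2, map_sub, s2] at h5
  · have h4 := (MulEquiv.irreducible_iff (s l)).2 f3
    rwa [show C a * f ^ 2 + c = C a * (f + h l) ^ 2 + s l c by
      rw [hh]; linear_combination (-(C a * f * h l) - C a * h l ^ 2) * h2, map_add, map_mul,
      map_pow, sC, s2] at h4

end Pool.Agent.MP_f37147_nt.Ex
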